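import Pool.Agent.Lib.MP_af430d_al.DoubleCosetB

/-!
# Double cosets in perfect locally finite p-groups with hypercentral proper subgroups
-/

set_option autoImplicit false

namespace Pool.Agent.Results.MP_af430d_al.DoubleCosets

/-- Let `G ≠ 1` be a perfect locally finite `p`-group all of whose proper subgroups are hypercentral (exactly the
hypotheses of Q1, in the form of the frozen statement), and let `A`, `B` be proper subgroups of `G`. Then `G` is not the
union of finitely many double cosets `A t B`. In particular `G` is not the product of two proper subgroups. -/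
theorem result {p : ℕ} (hp : p.Prime) {G : Type*} [Group G] (hpG : IsPGroup p G) (hnt : Nontrivial G)
    (hlf : ∀ s : Finset G, (Subgroup.closure (s : Set G) : Set G).Finite)
    (hperf : commutator G = ⊤)
    (hhyp : ∀ H : Subgroup G, H ≠ ⊤ →
      ∀ N : Subgroup G, N ≤ H → N ≠ H →
        (∀ n ∈ N, ∀ x ∈ H, x * n * x⁻¹ ∈ N) →
        ∃ h ∈ H, h ∉ N ∧ ∀ x ∈ H, h * x * h⁻¹ * x⁻¹ ∈ N)
    (A B : Subgroup G) (hA : A ≠ ⊤) (hB : B ≠ ⊤) (T : Finset G) :
    ∃ g : G, ∀ a ∈ A, ∀ t ∈ T, ∀ b ∈ B, g ≠ a * t * b :=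
  Pool.Agent.Lib.MP_af430d_al.DoubleCosetB.double_cosets hp hpG hlf hperf
    (Pool.Agent.Lib.MP_af430d_al.DoubleCosetB.hyp_of hhyp) hnt A B hA hB T

end Pool.Agent.Results.MP_af430d_al.DoubleCosets
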