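import Pool.Agent.Lib.MP_af430d_al.MainB
import Pool.Agent.Lib.MP_af430d_al.LeafT

/-!
# MP_af430d_al: elements with finite classes under normal closures of finite sets

Let `G` be a perfect locally finite `p`-group all of whose proper subgroups are hypercentral (hypotheses exactly as in the frozen statement S02701), such that every finite subset of `G` lies in a nilpotent normal
subgroup (`G` is a Fitting group). Then every nontrivial normal subgroup `T` of `G` contains an element `y ≠ 1` whose centralizer has finite index in the normal closure of every finite subset of `G`.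
-/

namespace Pool.Agent.Results.MP_af430d_al.FiniteClasses

universe v

theorem result {p : ℕ} (hp : p.Prime) {G : Type v} [Group G] (hpG : IsPGroup p G)
    (hlf : ∀ s : Finset G, (Subgroup.closure (s : Set G) : Set G).Finite)
    (hperf : commutator G = ⊤)
    (hhyp : ∀ H : Subgroup G, H ≠ ⊤ →
      ∀ N : Subgroup G, N ≤ H → N ≠ H →
        (∀ n ∈ N, ∀ x ∈ H, x * n * x⁻¹ ∈ N) →
        ∃ h ∈ H, h ∉ N ∧ ∀ x ∈ H, h * x * h⁻¹ * x⁻¹ ∈ N)
    (hfit : ∀ s : Finset G, ∃ N : Subgroup G, N.Normal ∧ Group.IsNilpotent N ∧ (s : Set G) ⊆ N) :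
    ∀ T : Subgroup G, T.Normal → T ≠ ⊥ → ∃ y ∈ T, y ≠ 1 ∧
      ∀ s : Finset G, (Subgroup.centralizer ({y} : Set G)).relIndex
        (Subgroup.normalClosure (s : Set G)) ≠ 0 := by
  classical
  intro T hT hne
  have h : AF430.Hy p G := ⟨hpG, hlf, hperf, hhyp, hfit⟩
  obtain ⟨E, a, y, hE, ha, hyT, hy, hleaf⟩ := AF430.leafT h T hT hne
  refine ⟨y, hyT, hy, fun s h0 => ?_⟩
  have h1 : (E : Set G) ⊆ ((hE.toFinset ∪ insert a s : Finset G) : Set G) := by
    intro x hx
    rw [Finset.coe_union, Set.Finite.coe_toFinset]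
    exact Or.inl hx
  have h2 : (s : Set G) ⊆ ((hE.toFinset ∪ insert a s : Finset G) : Set G) := by
    intro x hx
    rw [Finset.coe_union, Finset.coe_insert]
    exact Or.inr (Set.mem_insert_of_mem a hx)
  refine AF430.normalClosure_tool hp h E a y ha hleaf _ h1
    (Finset.mem_union_right _ (Finset.mem_insert_self a s)) ?_
  exact Subgroup.relIndex_eq_zero_of_le_right (Subgroup.normalClosure_mono h2) h0

end Pool.Agent.Results.MP_af430d_al.FiniteClasses
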