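import Pool.Agent.Lib.MP_af430d_al.MainB

/-!
# MP_af430d_al, Q1 for Fitting groups satisfying a law

Let `G` be a perfect locally finite `p`-group all of whose proper subgroups are hypercentral (hypotheses exactly as in the frozen statement S02701), such that every finite subset of `G` lies in a nilpotent normal
subgroup (`G` is a Fitting group). Then no nontrivial quotient `G/K` satisfies a nontrivial group law: for every proper normal subgroup `K` and every element `u ≠ 1` of the free group on a type `ι` there is a
substitution `g : ι → G` with `u(g) ∉ K` (so for instance every nontrivial quotient has infinite exponent and is not `n`-Engel; in particular a nontrivial Fitting group that satisfies some law is not an example for Q1).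
-/

namespace Pool.Agent.Results.MP_af430d_al.NoGroupLaw

universe v w

theorem result {p : ℕ} (hp : p.Prime) {G : Type v} [Group G] (hpG : IsPGroup p G)
    (hlf : ∀ s : Finset G, (Subgroup.closure (s : Set G) : Set G).Finite)
    (hperf : commutator G = ⊤)
    (hhyp : ∀ H : Subgroup G, H ≠ ⊤ →
      ∀ N : Subgroup G, N ≤ H → N ≠ H →
        (∀ n ∈ N, ∀ x ∈ H, x * n * x⁻¹ ∈ N) →
        ∃ h ∈ H, h ∉ N ∧ ∀ x ∈ H, h * x * h⁻¹ * x⁻¹ ∈ N)
    (hfit : ∀ s : Finset G, ∃ N : Subgroup G, N.Normal ∧ Group.IsNilpotent N ∧ (s : Set G) ⊆ N) :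
    ∀ K : Subgroup G, K.Normal → K ≠ ⊤ → ∀ (ι : Type w) (u : FreeGroup ι), u ≠ 1 →
      ∃ g : ι → G, FreeGroup.lift g u ∉ K := by
  intro K hK hne ι u hu
  have h : AF430.Hy p G := ⟨hpG, hlf, hperf, hhyp, hfit⟩
  have := hK
  exact AF430.main hp h K hne u hu

end Pool.Agent.Results.MP_af430d_al.NoGroupLaw
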